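import Mathlib

set_option autoImplicit false

open Filter Topology Set

namespace Pool.Agent.R475.RNP

variable {X : Type*} [NormedAddCommGroup X] [NormedSpace ℝ X]

/-- The closed convex hull of the tail of a sequence. -/
def K (y : ℕ → X) (n : ℕ) : Set X := closure (convexHull ℝ (y '' Set.Ici n))

theorem K_closed (y : ℕ → X) (n : ℕ) : IsClosed (K y n) := isClosed_closure

theorem K_convex (y : ℕ → X) (n : ℕ) : Convex ℝ (K y n) := (convex_convexHull ℝ _).closure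

theorem mem_K (y : ℕ → X) {n k : ℕ} (h : n ≤ k) : y k ∈ K y n :=
  subset_closure (subset_convexHull ℝ _ ⟨k, h, rfl⟩)

theorem K_subset {y : ℕ → X} {n : ℕ} {S : Set X} (hS : IsClosed S) (hc : Convex ℝ S)
    (h : ∀ k, n ≤ k → y k ∈ S) : K y n ⊆ S := by
  refine closure_minimal (convexHull_min ?_ hc) hS
  rintro _ ⟨k, hk, rfl⟩
  exact h k hk

theorem K_anti (y : ℕ → X) {m n : ℕ} (h : m ≤ n) : K y n ⊆ K y m :=
  K_subset (K_closed y m) (K_convex y m) fun _ hk => mem_K y (h.trans hk)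

theorem K_trans {y z : ℕ → X} (h : ∀ k, z k ∈ K y k) (n : ℕ) : K z n ⊆ K y n :=
  K_subset (K_closed y n) (K_convex y n) fun k hk => K_anti y hk (h k)

theorem K_ball {y : ℕ → X} (hy : ∀ k, ‖y k‖ ≤ 1) (n : ℕ) {z : X} (hz : z ∈ K y n) : ‖z‖ ≤ 1 := by
  have := K_subset (y := y) (n := n) (Metric.isClosed_closedBall (x := (0 : X)) (ε := 1))
    (convex_closedBall 0 1) (fun k _ => by simpa using hy k) hz
  simpa using this

theorem exists_of_K {y : ℕ → X} {n : ℕ} {z : X} (hz : z ∈ K y n) (b : X →L[ℝ] ℝ) {c : ℝ}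
    (h : c < b z) : ∃ k, n ≤ k ∧ c < b (y k) := by
  by_contra hcon
  push Not at hcon
  have h1 : K y n ⊆ {z | b z ≤ c} := by
    refine K_subset (isClosed_le b.continuous continuous_const) ?_ hcon
    exact convex_halfSpace_le b.isLinear c
  exact absurd (h1 hz) (not_le.2 h)

theorem le_of_K {y : ℕ → X} {n : ℕ} {z : X} (hz : z ∈ K y n) (b : X →L[ℝ] ℝ) {c : ℝ}
    (h : ∀ k, n ≤ k → c ≤ b (y k)) : c ≤ b z := by
  have h1 : K y n ⊆ {z | c ≤ b z} := by
    refine K_subset (isClosed_le continuous_const b.continuous) ?_ h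
    exact convex_halfSpace_ge b.isLinear c
  exact h1 hz

theorem exists_almost_min {S : Set X} (hS : S.Nonempty) (φ : X → ℝ) (h0 : ∀ z, 0 ≤ φ z) {ε : ℝ}
    (hε : 0 < ε) : ∃ z ∈ S, ∀ z' ∈ S, φ z ≤ φ z' + ε := by
  have hne : (φ '' S).Nonempty := hS.image φ
  have hbd : BddBelow (φ '' S) := ⟨0, by rintro _ ⟨z, _, rfl⟩; exact h0 z⟩
  obtain ⟨_, ⟨z, hz, rfl⟩, hlt⟩ := exists_lt_of_csInf_lt hne (lt_add_of_pos_right (sInf (φ '' S)) hε)
  refine ⟨z, hz, fun z' hz' => ?_⟩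
  have := csInf_le hbd ⟨z', hz', rfl⟩
  linarith

/-- The local form of the inequality of Simons. -/
theorem simons [CompleteSpace X] (y : ℕ → X) (hy : ∀ k, ‖y k‖ ≤ 1) (x₀ : X) (τ : ℝ) (hτ : 0 < τ)
    (γ ε : ℝ) (hε : 0 < ε) (h : ∀ z ∈ K y 0, ‖x₀‖ + τ * γ ≤ ‖x₀ + τ • z‖) :
    ∃ w ∈ K y 0, ∀ b : X →L[ℝ] ℝ, ‖b‖ ≤ 1 → b (x₀ + τ • w) = ‖x₀ + τ • w‖ →
      ∀ n, ∃ k, n ≤ k ∧ γ - ε < b (y k) := by
  have hpos : ∀ n : ℕ, 0 < τ / 2 ^ n := fun n => by positivity
  have hex : ∀ (n : ℕ) (s : X), ∃ z ∈ K y n, ∀ z' ∈ K y n,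
      ‖s + (τ / 2 ^ n) • z‖ ≤ ‖s + (τ / 2 ^ n) • z'‖ + ε * (τ / 2 ^ n) / 2 ^ (n + 1) := by
    intro n s
    have hne : (K y n).Nonempty := ⟨y n, mem_K y le_rfl⟩
    have he : 0 < ε * (τ / 2 ^ n) / 2 ^ (n + 1) := by positivity
    exact exists_almost_min hne (fun z => ‖s + (τ / 2 ^ n) • z‖) (fun _ => norm_nonneg _) he
  choose Z hZK hZ using hex
  let s : ℕ → X := fun n => Nat.rec x₀ (fun n s => s + (τ / 2 ^ (n + 1)) • Z n s) n
  have hs0 : s 0 = x₀ := rfl
  have hs : ∀ n, s (n + 1) = s n + (τ / 2 ^ (n + 1)) • Z n (s n) := fun n => rfl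
  have hsub : ∀ n j, ∀ z ∈ K y (n + j), ∃ w ∈ K y n,
      s (n + j) + (τ / 2 ^ (n + j)) • z = s n + (τ / 2 ^ n) • w := by
    intro n j
    induction j with
    | zero => intro z hz; exact ⟨z, hz, rfl⟩
    | succ j ih =>
      intro z hz
      have h1 : (1 / 2 : ℝ) • Z (n + j) (s (n + j)) + (1 / 2 : ℝ) • z ∈ K y (n + j) :=
        K_convex y (n + j) (hZK _ _) (K_anti y (by omega) hz) (by norm_num) (by norm_num)
          (by norm_num)
      obtain ⟨w, hw, hw'⟩ := ih _ h1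
      refine ⟨w, hw, ?_⟩
      rw [← hw', ← add_assoc n j 1, hs, smul_add, smul_smul, smul_smul, add_assoc]
      congr 2
      · congr 1
        rw [pow_succ]; ring
      · congr 1
        rw [pow_succ]; ring
  have hcau : CauchySeq s := by
    refine cauchySeq_of_le_geometric_two (C := τ) fun n => ?_
    rw [hs, dist_eq_norm]
    have h1 : s n - (s n + (τ / 2 ^ (n + 1)) • Z n (s n)) = -((τ / 2 ^ (n + 1)) • Z n (s n)) := by
      abel
    rw [h1, norm_neg, norm_smul, Real.norm_of_nonneg (hpos _).le]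
    have h2 : ‖Z n (s n)‖ ≤ 1 := K_ball hy n (hZK _ _)
    calc τ / 2 ^ (n + 1) * ‖Z n (s n)‖ ≤ τ / 2 ^ (n + 1) * 1 :=
          mul_le_mul_of_nonneg_left h2 (hpos _).le
      _ = τ / 2 / 2 ^ n := by rw [mul_one, pow_succ]; field_simp
  obtain ⟨x, hx⟩ := cauchySeq_tendsto_of_complete hcau
  have hw : ∀ n, ∃ w ∈ K y n, x = s n + (τ / 2 ^ n) • w := by
    intro n
    have h1 : Tendsto (fun j => s (j + n) + (τ / 2 ^ (j + n)) • y (j + n)) atTop (𝓝 x) := by
      have h2 : Tendsto (fun j => (τ / 2 ^ (j + n)) • y (j + n)) atTop (𝓝 0) := by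
        rw [tendsto_zero_iff_norm_tendsto_zero]
        have h3 : Tendsto (fun j : ℕ => τ / 2 ^ (j + n)) atTop (𝓝 0) := by
          have h4 : Tendsto (fun j : ℕ => τ * (1 / 2 : ℝ) ^ j) atTop (𝓝 (τ * 0)) :=
            (tendsto_pow_atTop_nhds_zero_of_lt_one (by norm_num) (by norm_num)).const_mul τ
          rw [mul_zero] at h4
          have h5 := (tendsto_add_atTop_iff_nat n).2 h4
          refine h5.congr fun j => ?_
          rw [one_div, inv_pow]; rfl
        refine squeeze_zero (fun _ => norm_nonneg _) (fun j => ?_) h3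
        rw [norm_smul, Real.norm_of_nonneg (hpos _).le]
        calc τ / 2 ^ (j + n) * ‖y (j + n)‖ ≤ τ / 2 ^ (j + n) * 1 :=
              mul_le_mul_of_nonneg_left (hy _) (hpos _).le
          _ = _ := mul_one _
      have h6 := ((tendsto_add_atTop_iff_nat n).2 hx).add h2
      rwa [add_zero] at h6
    have h7 : ∀ j, (2 ^ n / τ) • (s (j + n) + (τ / 2 ^ (j + n)) • y (j + n) - s n) ∈ K y n := by
      intro j
      obtain ⟨w, hw, hw'⟩ := hsub n j (y (j + n)) (mem_K y (by omega))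
      rw [add_comm n j] at hw'
      rw [hw', add_sub_cancel_left, smul_smul]
      have : 2 ^ n / τ * (τ / 2 ^ n) = 1 := by field_simp
      rwa [this, one_smul]
    have h8 : (2 ^ n / τ) • (x - s n) ∈ K y n :=
      (K_closed y n).mem_of_tendsto ((h1.sub_const (s n)).const_smul (2 ^ n / τ))
        (Eventually.of_forall h7)
    refine ⟨_, h8, ?_⟩
    rw [smul_smul]
    have : τ / 2 ^ n * (2 ^ n / τ) = 1 := by field_simp
    rw [this, one_smul]
    abel
  have hD : ∀ n, (τ / 2 ^ n) * (γ - ε * (1 - (1 / 2) ^ n)) ≤ ‖x‖ - ‖s n‖ := by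
    intro n
    induction n with
    | zero =>
      obtain ⟨w, hw1, hw2⟩ := hw 0
      rw [hs0] at hw2 ⊢
      simp only [pow_zero, div_one, sub_self, mul_zero, sub_zero] at hw2 ⊢
      have := h w hw1
      rw [← hw2] at this
      linarith
    | succ n ih =>
      obtain ⟨w, hw1, hw2⟩ := hw n
      have h1 := hZ n (s n) w hw1
      rw [← hw2] at h1
      have h2 : s (n + 1) = (1 / 2 : ℝ) • s n + (1 / 2 : ℝ) • (s n + (τ / 2 ^ n) • Z n (s n)) := by
        rw [hs, smul_add, ← add_assoc, ← add_smul, smul_smul]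
        norm_num
        congr 1
        rw [pow_succ]; ring
      have h3 : ‖s (n + 1)‖ ≤ (1 / 2) * ‖s n‖ + (1 / 2) * ‖s n + (τ / 2 ^ n) • Z n (s n)‖ := by
        rw [h2]
        refine (norm_add_le _ _).trans_eq ?_
        rw [norm_smul, norm_smul]
        norm_num
      have h4 : τ / 2 ^ (n + 1) * (γ - ε * (1 - (1 / 2) ^ (n + 1)))
          = (1 / 2) * (τ / 2 ^ n * (γ - ε * (1 - (1 / 2) ^ n)))
            - (1 / 2) * (ε * (τ / 2 ^ n) / 2 ^ (n + 1)) := by
        rw [one_div, inv_pow, inv_pow, pow_succ]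
        field_simp
        ring
      rw [h4]
      linarith
  obtain ⟨w, hwK, hwx⟩ := hw 0
  rw [hs0, pow_zero, div_one] at hwx
  refine ⟨w, hwK, fun b hb hbx n => ?_⟩
  rw [← hwx] at hbx
  obtain ⟨w', hw'K, hw'x⟩ := hw n
  have h1 : b x = b (s n) + (τ / 2 ^ n) * b w' := by
    rw [hw'x]; simp
  have h2 : b (s n) ≤ ‖s n‖ := by
    calc b (s n) ≤ ‖b (s n)‖ := Real.le_norm_self _
      _ ≤ ‖b‖ * ‖s n‖ := b.le_opNorm _
      _ ≤ 1 * ‖s n‖ := mul_le_mul_of_nonneg_right hb (norm_nonneg _)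
      _ = _ := one_mul _
  have h3 := hD n
  have h4 : (τ / 2 ^ n) * (γ - ε * (1 - (1 / 2) ^ n)) ≤ (τ / 2 ^ n) * b w' := by
    linarith
  have h5 := le_of_mul_le_mul_left h4 (hpos n)
  have h6 : γ - ε < b w' := by
    have : 0 < ε * (1 / 2) ^ n := by positivity
    linarith
  exact exists_of_K hw'K b h6

end Pool.Agent.R475.RNP
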