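import Mathlib
import Pool.Agent.R475.RNP.Simons

/-!
The functional analytic core: bounded martingale of functionals which oscillates.
-/

set_option autoImplicit false

open MeasureTheory Filter Topology Set
open scoped ENNReal

namespace Pool.Agent.R475.RNP

variable {Ω : Type*} [MeasurableSpace Ω] {μ : Measure Ω} [IsProbabilityMeasure μ]

/-- Bessel's inequality for a bounded orthogonal sequence tested against an indicator. -/
theorem bessel {h : ℕ → Ω → ℝ} {C : ℝ} (hm : ∀ n, Measurable (h n)) (hC : ∀ n ω, |h n ω| ≤ C)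
    (horth : ∀ n k, n < k → ∫ ω, h n ω * h k ω ∂μ = 0) {S : Set Ω} (hS : MeasurableSet S) :
    Tendsto (fun n => ∫ ω in S, h n ω ∂μ) atTop (𝓝 0) := by
  classical
  -- replace the bound by a positive one
  obtain ⟨D, hD0, hD⟩ : ∃ D : ℝ, 0 < D ∧ ∀ n ω, |h n ω| ≤ D :=
    ⟨max C 1, by positivity, fun n ω => (hC n ω).trans (le_max_left _ _)⟩
  set a : ℕ → ℝ := fun n => ∫ ω in S, h n ω ∂μ with ha
  let Z : ℕ → Ω → ℝ := fun N ω => D ^ 2 * S.indicator (fun _ => (1 : ℝ)) ω -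
    ∑ n ∈ Finset.range N, a n * h n ω
  have hind : Measurable (S.indicator (fun _ => (1 : ℝ))) := measurable_const.indicator hS
  have hsum : ∀ N, Measurable fun ω => ∑ n ∈ Finset.range N, a n * h n ω := fun N =>
    Finset.measurable_fun_sum _ fun n _ => (hm n).const_mul _
  have hZm : ∀ N, Measurable (Z N) := fun N => (hind.const_mul _).sub (hsum N)
  have hsb : ∀ N ω, |∑ n ∈ Finset.range N, a n * h n ω| ≤ ∑ n ∈ Finset.range N, |a n| * D := by
    intro N ω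
    refine (Finset.abs_sum_le_sum_abs _ _).trans (Finset.sum_le_sum fun n _ => ?_)
    rw [abs_mul]
    exact mul_le_mul_of_nonneg_left (hD n ω) (abs_nonneg _)
  have hib : ∀ ω, |S.indicator (fun _ => (1 : ℝ)) ω| ≤ 1 := by
    intro ω
    by_cases hω : ω ∈ S <;> simp [hω]
  have hZb : ∀ N ω, |Z N ω| ≤ D ^ 2 + ∑ n ∈ Finset.range N, |a n| * D := by
    intro N ω
    refine (abs_sub _ _).trans (add_le_add ?_ (hsb N ω))
    rw [abs_mul, abs_of_nonneg (by positivity : (0 : ℝ) ≤ D ^ 2)]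
    calc D ^ 2 * |S.indicator (fun _ => (1 : ℝ)) ω| ≤ D ^ 2 * 1 :=
          mul_le_mul_of_nonneg_left (hib ω) (by positivity)
      _ = D ^ 2 := mul_one _
  have bdd_int : ∀ f : Ω → ℝ, Measurable f → (∃ M, ∀ ω, |f ω| ≤ M) → Integrable f μ := by
    rintro f hf ⟨M, hM⟩
    exact Integrable.of_bound hf.aestronglyMeasurable M (Eventually.of_forall hM)
  have bdd_mul : ∀ f g : Ω → ℝ, (∃ M, ∀ ω, |f ω| ≤ M) → (∃ M, ∀ ω, |g ω| ≤ M) →
      ∃ M, ∀ ω, |f ω * g ω| ≤ M := by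
    rintro f g ⟨M, hM⟩ ⟨M', hM'⟩
    refine ⟨M * M', fun ω => ?_⟩
    rw [abs_mul]
    exact mul_le_mul (hM ω) (hM' ω) (abs_nonneg _) ((abs_nonneg _).trans (hM ω))
  have hZh : ∀ N, ∫ ω, Z N ω * h N ω ∂μ = D ^ 2 * a N := by
    intro N
    have h1 : ∀ ω, Z N ω * h N ω = D ^ 2 * S.indicator (h N) ω -
        ∑ n ∈ Finset.range N, a n * (h n ω * h N ω) := by
      intro ω
      show (D ^ 2 * S.indicator (fun _ => (1 : ℝ)) ω - ∑ n ∈ Finset.range N, a n * h n ω) * h N ω = _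
      rw [sub_mul, Finset.sum_mul]
      congr 1
      · by_cases hω : ω ∈ S <;> simp [hω]
      · exact Finset.sum_congr rfl fun n _ => by ring
    have i1 : Integrable (fun ω => D ^ 2 * S.indicator (h N) ω) μ :=
      ((bdd_int _ (hm N) ⟨D, hD N⟩).indicator hS).const_mul _
    have i2 : ∀ n ∈ Finset.range N, Integrable (fun ω => a n * (h n ω * h N ω)) μ := fun n _ =>
      (bdd_int _ ((hm n).mul (hm N)) (bdd_mul _ _ ⟨D, hD n⟩ ⟨D, hD N⟩)).const_mul _
    simp_rw [h1]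
    rw [integral_sub i1 (integrable_finsetSum _ i2), integral_finsetSum _ i2,
      integral_const_mul, integral_indicator hS]
    rw [Finset.sum_eq_zero fun n hn => ?_, sub_zero]
    rw [integral_const_mul, horth n N (Finset.mem_range.1 hn), mul_zero]
  have hstep : ∀ N, ∫ ω, Z (N + 1) ω ^ 2 ∂μ ≤ ∫ ω, Z N ω ^ 2 ∂μ - D ^ 2 * a N ^ 2 := by
    intro N
    have h1 : ∀ ω, Z (N + 1) ω ^ 2 = Z N ω ^ 2 - 2 * a N * (Z N ω * h N ω) +
        a N ^ 2 * (h N ω * h N ω) := by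
      intro ω
      have h2 : Z (N + 1) ω = Z N ω - a N * h N ω := by
        show D ^ 2 * S.indicator (fun _ => (1 : ℝ)) ω - ∑ n ∈ Finset.range (N + 1), a n * h n ω =
          D ^ 2 * S.indicator (fun _ => (1 : ℝ)) ω - ∑ n ∈ Finset.range N, a n * h n ω - a N * h N ω
        rw [Finset.sum_range_succ]; ring
      rw [h2]; ring
    have hZbN : ∃ M, ∀ ω, |Z N ω| ≤ M := ⟨_, hZb N⟩
    have i1 : Integrable (fun ω => Z N ω ^ 2) μ := by
      simp_rw [pow_two]
      exact bdd_int _ ((hZm N).mul (hZm N)) (bdd_mul _ _ hZbN hZbN)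
    have i2 : Integrable (fun ω => 2 * a N * (Z N ω * h N ω)) μ :=
      (bdd_int _ ((hZm N).mul (hm N)) (bdd_mul _ _ hZbN ⟨D, hD N⟩)).const_mul _
    have i3 : Integrable (fun ω => a N ^ 2 * (h N ω * h N ω)) μ :=
      (bdd_int _ ((hm N).mul (hm N)) (bdd_mul _ _ ⟨D, hD N⟩ ⟨D, hD N⟩)).const_mul _
    have i12 : Integrable (fun ω => Z N ω ^ 2 - 2 * a N * (Z N ω * h N ω)) μ := i1.sub i2
    simp_rw [h1]
    rw [integral_add i12 i3, integral_sub i1 i2, integral_const_mul, integral_const_mul, hZh]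
    have h3 : ∫ ω, h N ω * h N ω ∂μ ≤ D ^ 2 := by
      have h4 : ∫ ω, h N ω * h N ω ∂μ ≤ ∫ _ω, D ^ 2 ∂μ := by
        refine integral_mono (bdd_int _ ((hm N).mul (hm N)) (bdd_mul _ _ ⟨D, hD N⟩ ⟨D, hD N⟩))
          (integrable_const _) fun ω => ?_
        have := hD N ω
        rw [abs_le] at this
        show h N ω * h N ω ≤ D ^ 2
        nlinarith
      simpa using h4
    nlinarith [sq_nonneg (a N)]
  have hbound : ∀ N, ∑ n ∈ Finset.range N, D ^ 2 * a n ^ 2 ≤ ∫ ω, Z 0 ω ^ 2 ∂μ := by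
    intro N
    have h1 : ∀ N, ∑ n ∈ Finset.range N, D ^ 2 * a n ^ 2 + ∫ ω, Z N ω ^ 2 ∂μ ≤
        ∫ ω, Z 0 ω ^ 2 ∂μ := by
      intro N
      induction N with
      | zero => simp
      | succ N ih =>
        rw [Finset.sum_range_succ]
        have := hstep N
        linarith
    have h2 : 0 ≤ ∫ ω, Z N ω ^ 2 ∂μ := integral_nonneg fun ω => sq_nonneg _
    linarith [h1 N]
  have hsummable : Summable fun n => D ^ 2 * a n ^ 2 :=
    summable_of_sum_range_le (fun n => by positivity) hbound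
  have h1 := hsummable.tendsto_atTop_zero
  have h2 : Tendsto (fun n => a n ^ 2) atTop (𝓝 0) := by
    have h3 := h1.const_mul ((D ^ 2)⁻¹)
    simp only [mul_zero] at h3
    refine h3.congr fun n => ?_
    rw [← mul_assoc, inv_mul_cancel₀ (by positivity), one_mul]
  have h3 : Tendsto (fun n => Real.sqrt (a n ^ 2)) atTop (𝓝 0) := by
    have := (Real.continuous_sqrt.tendsto 0).comp h2
    simpa [Function.comp_def] using this
  simp_rw [Real.sqrt_sq_eq_abs] at h3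
  exact (tendsto_zero_iff_abs_tendsto_zero _).2 h3

variable {𝕜 : Type*} [RCLike 𝕜] {X : Type*} [NormedAddCommGroup X] [NormedSpace 𝕜 X]

theorem exists_norming (f : StrongDual 𝕜 X) {δ : ℝ} (hδ : 0 < δ) :
    ∃ y : X, ‖y‖ ≤ 1 ∧ ‖f‖ - δ ≤ RCLike.re (f y) := by
  by_cases hf : ‖f‖ - δ < 0
  · exact ⟨0, by simp, by simpa using hf.le⟩
  push Not at hf
  obtain ⟨x, hx, hfx⟩ := ContinuousLinearMap.exists_lt_apply_of_lt_opNorm f
    (show ‖f‖ - δ < ‖f‖ by linarith)
  have hpos : 0 < ‖f x‖ := lt_of_le_of_lt hf hfx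
  refine ⟨((starRingEnd 𝕜) (f x) / (‖f x‖ : 𝕜)) • x, ?_, ?_⟩
  · rw [norm_smul, norm_div, RCLike.norm_conj, RCLike.norm_ofReal, abs_of_pos hpos,
      div_self hpos.ne', one_mul]
    exact hx.le
  · rw [map_smul, smul_eq_mul, div_mul_eq_mul_div, RCLike.conj_mul]
    have : ((‖f x‖ : 𝕜) ^ 2 / (‖f x‖ : 𝕜)) = ((‖f x‖ : ℝ) : 𝕜) := by
      rw [pow_two, mul_div_assoc, div_self, mul_one]
      exact RCLike.ofReal_ne_zero.2 hpos.ne'
    rw [this, RCLike.ofReal_re]
    exact hfx.le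

end Pool.Agent.R475.RNP
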