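import Mathlib
import Pool.Agent.R475.RNP.Core

/-!
Martingale differences along a refining sequence of partitions.
-/

set_option autoImplicit false

open MeasureTheory Filter Topology Set
open scoped ENNReal

namespace Pool.Agent.R475.RNP

variable {Ω : Type*} [MeasurableSpace Ω] {μ : Measure Ω} [IsProbabilityMeasure μ]
variable {𝕜 : Type*} [RCLike 𝕜] {X : Type*} [NormedAddCommGroup X] [NormedSpace 𝕜 X]
  [NormedSpace ℝ X]

/-- The conditional expectation given `Q = k`. -/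
noncomputable def cexp (μ : Measure Ω) (Q : Ω → ℕ) (u : Ω → X) (k : ℕ) : X :=
  (μ.real (Q ⁻¹' {k}))⁻¹ • ∫ ω in Q ⁻¹' {k}, u ω ∂μ

theorem cexp_norm (Q : Ω → ℕ) (u : Ω → X) (hu : ∀ ω, ‖u ω‖ ≤ 1) (k : ℕ) :
    ‖cexp μ Q u k‖ ≤ 1 := by
  unfold cexp
  rw [norm_smul, norm_inv, Real.norm_of_nonneg measureReal_nonneg]
  have h1 : ‖∫ ω in Q ⁻¹' {k}, u ω ∂μ‖ ≤ 1 * μ.real (Q ⁻¹' {k}) :=
    norm_setIntegral_le_of_norm_le_const (measure_lt_top _ _) fun ω _ => hu ω
  rcases eq_or_lt_of_le (measureReal_nonneg (μ := μ) (s := Q ⁻¹' {k})) with h | h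
  · rw [← h]; simp
  · rw [inv_mul_le_iff₀ h]
    linarith

theorem sm_comp {Z : Type*} [TopologicalSpace Z] (B : ℕ → Z) {Q : Ω → ℕ} (hQ : Measurable Q) :
    StronglyMeasurable fun ω => B (Q ω) :=
  (StronglyMeasurable.of_discrete (f := B)).comp_measurable hQ

theorem int_apply {g : Ω → StrongDual 𝕜 X} (hg : Integrable g μ) {x : Ω → X}
    (hx : AEStronglyMeasurable x μ) {C : ℝ} (hC : ∀ ω, ‖x ω‖ ≤ C) :
    Integrable (fun ω => g ω (x ω)) μ :=
  (ContinuousLinearMap.id 𝕜 (StrongDual 𝕜 X)).integrable_of_bilin_of_bdd_right C hg hx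
    (Eventually.of_forall hC)

theorem cexp_orth [CompleteSpace X] {Q : Ω → ℕ} (hQ : Measurable Q) {u : Ω → X}
    (hum : StronglyMeasurable u) (hu : ∀ ω, ‖u ω‖ ≤ 1) (B : ℕ → StrongDual 𝕜 X) {M : ℝ}
    (hB : ∀ k, ‖B k‖ ≤ M) : ∫ ω, B (Q ω) (u ω - cexp μ Q u (Q ω)) ∂μ = 0 := by
  have hsm : StronglyMeasurable fun ω => u ω - cexp μ Q u (Q ω) := hum.sub (sm_comp _ hQ)
  have hb : ∀ ω, ‖u ω - cexp μ Q u (Q ω)‖ ≤ 2 := fun ω =>
    (norm_sub_le _ _).trans (by linarith [hu ω, cexp_norm (μ := μ) Q u hu (Q ω)])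
  have hBi : Integrable (fun ω => B (Q ω)) μ :=
    Integrable.of_bound (sm_comp B hQ).aestronglyMeasurable M (Eventually.of_forall fun ω => hB _)
  have hint : Integrable (fun ω => B (Q ω) (u ω - cexp μ Q u (Q ω))) μ :=
    int_apply hBi hsm.aestronglyMeasurable hb
  have hU : (⋃ k, Q ⁻¹' {k}) = univ := by
    ext ω; simp
  rw [← setIntegral_univ, ← hU, integral_iUnion (fun k => hQ (measurableSet_singleton k)) ?_
    (by rw [hU]; exact hint.integrableOn)]
  · have h0 : ∀ k, ∫ ω in Q ⁻¹' {k}, B (Q ω) (u ω - cexp μ Q u (Q ω)) ∂μ = 0 := by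
      intro k
      have h1 : ∫ ω in Q ⁻¹' {k}, B (Q ω) (u ω - cexp μ Q u (Q ω)) ∂μ =
          ∫ ω in Q ⁻¹' {k}, B k (u ω - cexp μ Q u k) ∂μ := by
        refine setIntegral_congr_fun (hQ (measurableSet_singleton k)) fun ω hω => ?_
        simp only [mem_preimage, mem_singleton_iff] at hω
        simp only [hω]
      have hui : Integrable u (μ.restrict (Q ⁻¹' {k})) :=
        Integrable.of_bound hum.aestronglyMeasurable 1 (Eventually.of_forall hu)
      have hsub : Integrable (fun ω => u ω - cexp μ Q u k) (μ.restrict (Q ⁻¹' {k})) :=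
        hui.sub (integrable_const _)
      rw [h1, ContinuousLinearMap.integral_comp_comm _ hsub,
        integral_sub hui (integrable_const _), setIntegral_const]
      have h2 : ∫ ω in Q ⁻¹' {k}, u ω ∂μ - μ.real (Q ⁻¹' {k}) • cexp μ Q u k = 0 := by
        unfold cexp
        by_cases h : μ.real (Q ⁻¹' {k}) = 0
        · rw [h, zero_smul, sub_zero]
          apply setIntegral_measure_zero
          exact (measureReal_eq_zero_iff (measure_ne_top _ _)).1 h
        · rw [smul_smul, mul_inv_cancel₀ h, one_smul, sub_self]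
      rw [h2, map_zero]
    simp_rw [h0]
    simp
  · intro i j hij
    refine Set.disjoint_left.2 fun ω h1 h2 => hij ?_
    simp only [mem_preimage, mem_singleton_iff] at h1 h2
    rw [← h1, h2]

section seq

variable {P : ℕ → Ω → ℕ} (hP : ∀ n, Measurable (P n)) {r : ℕ → ℕ → ℕ}
  (hr : ∀ n, ∀ᵐ ω ∂μ, P n ω = r n (P (n + 1) ω)) {y : ℕ → ℕ → X} (hy : ∀ n k, ‖y n k‖ ≤ 1)

/-- The conditional expectations. -/
noncomputable def zz (μ : Measure Ω) (P : ℕ → Ω → ℕ) (y : ℕ → ℕ → X) (n k : ℕ) : X :=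
  cexp μ (P n) (fun ω => y n (P (n + 1) ω)) k

/-- The martingale differences. -/
noncomputable def xx (μ : Measure Ω) (P : ℕ → Ω → ℕ) (y : ℕ → ℕ → X) (n : ℕ) (ω : Ω) : X :=
  y n (P (n + 1) ω) - zz μ P y n (P n ω)

include hP in
theorem xx_sm (n : ℕ) : StronglyMeasurable (xx μ P y n) :=
  (sm_comp _ (hP _)).sub (sm_comp _ (hP _))

include hy in
theorem xx_norm (n : ℕ) (ω : Ω) : ‖xx μ P y n ω‖ ≤ 2 :=
  (norm_sub_le _ _).trans (by
    linarith [hy n (P (n + 1) ω), cexp_norm (μ := μ) (P n) (fun ω => y n (P (n + 1) ω))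
      (fun ω => hy _ _) (P n ω), show ‖zz μ P y n (P n ω)‖ =
      ‖cexp μ (P n) (fun ω => y n (P (n + 1) ω)) (P n ω)‖ from rfl])

include hr in
theorem rho {n k : ℕ} (h : n ≤ k) : ∃ ρ : ℕ → ℕ, ∀ᵐ ω ∂μ, P n ω = ρ (P k ω) := by
  induction k, h using Nat.le_induction with
  | base => exact ⟨id, Eventually.of_forall fun _ => rfl⟩
  | succ k _ ih =>
    obtain ⟨ρ, hρ⟩ := ih
    refine ⟨ρ ∘ r k, ?_⟩
    filter_upwards [hρ, hr k] with ω h1 h2
    rw [h1, h2]; rfl

include hP hy in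
theorem xx_orth [CompleteSpace X] (n : ℕ) (B : ℕ → StrongDual 𝕜 X) {M : ℝ}
    (hB : ∀ k, ‖B k‖ ≤ M) : ∫ ω, B (P n ω) (xx μ P y n ω) ∂μ = 0 :=
  cexp_orth (hP n) (sm_comp _ (hP _)) (fun ω => hy _ _) B hB

include hr in
/-- `xx n` is a function of `P k` for `k > n`. -/
theorem xx_eq {n k : ℕ} (h : n < k) : ∃ G : ℕ → X, ∀ᵐ ω ∂μ, xx μ P y n ω = G (P k ω) := by
  obtain ⟨ρ, hρ⟩ := rho hr (show n + 1 ≤ k from h)
  refine ⟨fun j => y n (ρ j) - zz μ P y n (r n (ρ j)), ?_⟩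
  filter_upwards [hρ, hr n] with ω h1 h2
  unfold xx
  rw [h2, h1]

include hP hr hy in
theorem tendsto_const [CompleteSpace X] (c : StrongDual 𝕜 X) {S : Set Ω} (hS : MeasurableSet S) :
    Tendsto (fun n => ∫ ω in S, RCLike.re (c (xx μ P y n ω)) ∂μ) atTop (𝓝 0) := by
  have hcx : ∀ n ω, |RCLike.re (c (xx μ P y n ω))| ≤ ‖c‖ * 2 := fun n ω =>
    (RCLike.abs_re_le_norm _).trans ((c.le_opNorm _).trans
      (mul_le_mul_of_nonneg_left (xx_norm hy n ω) (norm_nonneg _)))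
  have hmeas : ∀ n, StronglyMeasurable fun ω => RCLike.re (c (xx μ P y n ω)) := fun n =>
    RCLike.continuous_re.comp_stronglyMeasurable
      (c.continuous.comp_stronglyMeasurable (xx_sm hP n))
  refine bessel (h := fun n ω => RCLike.re (c (xx μ P y n ω))) (fun n => (hmeas n).measurable)
    hcx ?_ hS
  intro n k hnk
  -- truncate `G`
  obtain ⟨G, hG⟩ := xx_eq (μ := μ) (y := y) hr hnk
  let t : ℕ → ℝ := fun j => max (-(‖c‖ * 2)) (min (RCLike.re (c (G j))) (‖c‖ * 2))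
  have ht : ∀ j, |t j| ≤ ‖c‖ * 2 := by
    intro j
    have h0 : 0 ≤ ‖c‖ * 2 := by positivity
    rw [abs_le]
    refine ⟨le_max_left _ _, max_le (by linarith) (min_le_right _ _)⟩
  have h1 : ∀ᵐ ω ∂μ, RCLike.re (c (xx μ P y n ω)) * RCLike.re (c (xx μ P y k ω)) =
      RCLike.re ((((t (P k ω) : ℝ) : 𝕜) • c) (xx μ P y k ω)) := by
    filter_upwards [hG] with ω hω
    have h2 : RCLike.re (c (xx μ P y n ω)) = t (P k ω) := by
      show _ = max (-(‖c‖ * 2)) (min (RCLike.re (c (G (P k ω)))) (‖c‖ * 2))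
      rw [← hω]
      have h3 := abs_le.1 (hcx n ω)
      rw [min_eq_left h3.2, max_eq_right h3.1]
    rw [h2, smul_apply, smul_eq_mul, RCLike.re_ofReal_mul]
  rw [integral_congr_ae h1]
  have hB : ∀ j, ‖((t j : ℝ) : 𝕜) • c‖ ≤ ‖c‖ * 2 * ‖c‖ := by
    intro j
    rw [norm_smul, RCLike.norm_ofReal]
    exact mul_le_mul_of_nonneg_right (ht j) (norm_nonneg _)
  have h4 := xx_orth (μ := μ) (y := y) hP hy k (fun j => ((t j : ℝ) : 𝕜) • c) hB
  have hBi : Integrable (fun ω => ((t (P k ω) : ℝ) : 𝕜) • c) μ :=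
    Integrable.of_bound (sm_comp (fun j => ((t j : ℝ) : 𝕜) • c) (hP k)).aestronglyMeasurable _
      (Eventually.of_forall fun ω => hB _)
  have h5 := integral_re (int_apply hBi (xx_sm (μ := μ) (y := y) hP k).aestronglyMeasurable
    (xx_norm hy k))
  rw [h5]
  rw [h4]
  simp

include hP hr hy in
theorem tendsto_int [CompleteSpace X] {g : Ω → StrongDual 𝕜 X} (hg : Integrable g μ) :
    Tendsto (fun n => ∫ ω, RCLike.re (g ω (xx μ P y n ω)) ∂μ) atTop (𝓝 0) := by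
  have hap : ∀ (f : Ω → StrongDual 𝕜 X), Integrable f μ → ∀ n,
      Integrable (fun ω => RCLike.re (f ω (xx μ P y n ω))) μ := fun f hf n =>
    (int_apply hf (xx_sm (μ := μ) (y := y) hP n).aestronglyMeasurable (xx_norm hy n)).re
  refine Integrable.induction (P := fun g : Ω → StrongDual 𝕜 X =>
    Tendsto (fun n => ∫ ω, RCLike.re (g ω (xx μ P y n ω)) ∂μ) atTop (𝓝 0)) ?_ ?_ ?_ ?_ hg
  · intro c S hS _
    refine (tendsto_const hP hr hy c hS).congr fun n => ?_
    rw [← integral_indicator hS]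
    refine integral_congr_ae (Eventually.of_forall fun ω => ?_)
    by_cases hω : ω ∈ S <;> simp [hω]
  · intro f g _ hf hg h1 h2
    have h3 := h1.add h2
    simp only [add_zero] at h3
    refine h3.congr fun n => ?_
    rw [← integral_add (hap f hf n) (hap g hg n)]
    refine integral_congr_ae (Eventually.of_forall fun ω => ?_)
    simp
  · refine isClosed_of_closure_subset fun f hf => ?_
    show Tendsto (fun n => ∫ ω, RCLike.re (f ω (xx μ P y n ω)) ∂μ) atTop (𝓝 0)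
    rw [Metric.tendsto_atTop]
    intro ε hε
    obtain ⟨g, hg, hfg⟩ := Metric.mem_closure_iff.1 hf (ε / 4) (by positivity)
    obtain ⟨N, hN⟩ := (Metric.tendsto_atTop.1 hg) (ε / 2) (by positivity)
    refine ⟨N, fun n hn => ?_⟩
    have h1 := hN n hn
    rw [Real.dist_eq, sub_zero] at h1 ⊢
    have hfi := L1.integrable_coeFn f
    have hgi := L1.integrable_coeFn g
    have h2 : ∫ ω, RCLike.re (f ω (xx μ P y n ω)) ∂μ - ∫ ω, RCLike.re (g ω (xx μ P y n ω)) ∂μ =
        ∫ ω, (RCLike.re (f ω (xx μ P y n ω)) - RCLike.re (g ω (xx μ P y n ω))) ∂μ :=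
      (integral_sub (hap _ hfi n) (hap _ hgi n)).symm
    have h3 : |∫ ω, (RCLike.re (f ω (xx μ P y n ω)) - RCLike.re (g ω (xx μ P y n ω))) ∂μ| ≤
        ∫ ω, ‖f ω - g ω‖ * 2 ∂μ := by
      rw [← Real.norm_eq_abs]
      refine norm_integral_le_of_norm_le ((hfi.sub hgi).norm.mul_const 2)
        (Eventually.of_forall fun ω => ?_)
      rw [← map_sub, ← ContinuousLinearMap.sub_apply]
      exact (RCLike.norm_re_le_norm _).trans (((f ω - g ω).le_opNorm _).trans
        (mul_le_mul_of_nonneg_left (xx_norm hy n ω) (norm_nonneg _)))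
    have h4 : ∫ ω, ‖f ω - g ω‖ * 2 ∂μ = dist f g * 2 := by
      rw [integral_mul_const, dist_eq_norm, L1.norm_eq_integral_norm]
      congr 1
      refine integral_congr_ae ?_
      filter_upwards [Lp.coeFn_sub f g] with ω hω
      rw [hω]; rfl
    rw [← h2, h4] at h3
    have h5 := abs_sub_abs_le_abs_sub (∫ ω, RCLike.re (f ω (xx μ P y n ω)) ∂μ)
      (∫ ω, RCLike.re (g ω (xx μ P y n ω)) ∂μ)
    linarith
  · intro f g hfg _ h1
    refine h1.congr fun n => ?_
    show ∫ ω, RCLike.re (f ω (xx μ P y n ω)) ∂μ = ∫ ω, RCLike.re (g ω (xx μ P y n ω)) ∂μ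
    refine integral_congr_ae ?_
    filter_upwards [hfg] with ω hω
    rw [hω]

end seq

end Pool.Agent.R475.RNP
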