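import Mathlib

/-!
Averages of a vector measure over finite partitions.
-/

set_option autoImplicit false

open MeasureTheory Filter Topology Set

namespace Pool.Agent.R475.RNP

variable {W : Type*} [MeasurableSpace W] {lam : Measure W} [IsFiniteMeasure lam]
  {Y : Type*} [NormedAddCommGroup Y] [NormedSpace ℝ Y] (m : VectorMeasure W Y)

/-- The average of `m` on `A`. -/
noncomputable def avg (lam : Measure W) (m : VectorMeasure W Y) (A : Set W) : Y :=
  (lam.real A)⁻¹ • m A

theorem norm_avg_le (hm : ∀ A, MeasurableSet A → ‖m A‖ ≤ lam.real A) {A : Set W}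
    (hA : MeasurableSet A) : ‖avg lam m A‖ ≤ 1 := by
  unfold avg
  rw [norm_smul, norm_inv, Real.norm_of_nonneg measureReal_nonneg]
  rcases eq_or_lt_of_le (measureReal_nonneg (μ := lam) (s := A)) with h | h
  · rw [← h]; simp
  · rw [inv_mul_le_iff₀ h, mul_one]
    exact hm A hA

theorem smul_avg (hm : ∀ A, MeasurableSet A → ‖m A‖ ≤ lam.real A) {A : Set W}
    (hA : MeasurableSet A) : lam.real A • avg lam m A = m A := by
  unfold avg
  rcases eq_or_lt_of_le (measureReal_nonneg (μ := lam) (s := A)) with h | h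
  · have h1 := hm A hA
    rw [← h] at h1
    have h2 : m A = 0 := norm_le_zero_iff.1 h1
    rw [h2]; simp
  · rw [smul_smul, mul_inv_cancel₀ h.ne', one_smul]

/-- The simple function of the averages of `m` over the cells of a partition. -/
noncomputable def phi (lam : Measure W) (m : VectorMeasure W Y) (p : SimpleFunc W ℕ) :
    SimpleFunc W Y := p.map fun k => avg lam m (p ⁻¹' {k})

theorem phi_apply (p : SimpleFunc W ℕ) (w : W) : phi lam m p w = avg lam m (p ⁻¹' {p w}) := rfl

theorem integrable_phi (p : SimpleFunc W ℕ) : Integrable (phi lam m p) lam :=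
  SimpleFunc.integrable_of_isFiniteMeasure _

theorem setIntegral_phi [CompleteSpace Y] (hm : ∀ A, MeasurableSet A → ‖m A‖ ≤ lam.real A)
    (p : SimpleFunc W ℕ) (S : Set ℕ) :
    ∫ w in p ⁻¹' S, phi lam m p w ∂lam = m (p ⁻¹' S) := by
  classical
  have hU : p ⁻¹' S = ⋃ k ∈ p.range.filter (· ∈ S), p ⁻¹' {k} := by
    ext w
    simp only [mem_preimage, mem_iUnion, Finset.mem_filter, SimpleFunc.mem_range, Set.mem_range,
      mem_singleton_iff, exists_prop]
    constructor
    · intro h
      exact ⟨p w, ⟨⟨w, rfl⟩, h⟩, rfl⟩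
    · rintro ⟨k, ⟨-, h⟩, h2⟩
      rwa [h2]
  have hdis : (↑(p.range.filter (· ∈ S)) : Set ℕ).PairwiseDisjoint fun k => p ⁻¹' {k} := by
    intro i _ j _ hij
    refine Set.disjoint_left.2 fun w h1 h2 => hij ?_
    simp only [mem_preimage, mem_singleton_iff] at h1 h2
    rw [← h1, h2]
  rw [hU, integral_biUnion_finset _ (fun k _ => p.measurableSet_preimage _) hdis
    (fun k _ => (integrable_phi m p).integrableOn),
    VectorMeasure.of_biUnion_finset hdis (fun k _ => p.measurableSet_preimage _)]
  refine Finset.sum_congr rfl fun k _ => ?_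
  have h1 : ∫ w in p ⁻¹' {k}, phi lam m p w ∂lam =
      ∫ w in p ⁻¹' {k}, avg lam m (p ⁻¹' {k}) ∂lam := by
    refine setIntegral_congr_fun (p.measurableSet_preimage _) fun w hw => ?_
    simp only [mem_preimage, mem_singleton_iff] at hw
    rw [phi_apply, hw]
  rw [h1, setIntegral_const, smul_avg m hm (p.measurableSet_preimage _)]

/-- The common refinement. -/
noncomputable def join (p q : SimpleFunc W ℕ) : SimpleFunc W ℕ :=
  (p.pair q).map fun z => Nat.pair z.1 z.2

theorem join_left (p q : SimpleFunc W ℕ) (w : W) : p w = (Nat.unpair (join p q w)).1 := by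
  simp [join]

theorem join_right (p q : SimpleFunc W ℕ) (w : W) : q w = (Nat.unpair (join p q w)).2 := by
  simp [join]

/-- The averages over finite partitions are Cauchy in `L¹`. -/
def CP (lam : Measure W) (m : VectorMeasure W Y) : Prop :=
  ∀ ε > 0, ∃ p : SimpleFunc W ℕ, ∀ (q : SimpleFunc W ℕ) (r : ℕ → ℕ), (∀ w, p w = r (q w)) →
    ∫ w, ‖phi lam m q w - phi lam m p w‖ ∂lam ≤ ε

theorem density_of_CP [CompleteSpace Y] (hm : ∀ A, MeasurableSet A → ‖m A‖ ≤ lam.real A)
    (h : CP lam m) : ∃ f : W → Y, Integrable f lam ∧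
      ∀ A, MeasurableSet A → m A = ∫ w in A, f w ∂lam := by
  have h' : ∀ n : ℕ, ∃ p : SimpleFunc W ℕ, ∀ (q : SimpleFunc W ℕ) (r : ℕ → ℕ),
      (∀ w, p w = r (q w)) → ∫ w, ‖phi lam m q w - phi lam m p w‖ ∂lam ≤ (1 / 2 : ℝ) ^ n :=
    fun n => h _ (by positivity)
  choose p hp using h'
  let F : ℕ → Lp Y 1 lam := fun n => (integrable_phi m (p n)).toL1 _
  have hdist : ∀ a b, dist (F a) (F b) = ∫ w, ‖phi lam m (p a) w - phi lam m (p b) w‖ ∂lam := by
    intro a b
    rw [dist_eq_norm, ← Integrable.toL1_sub _ _ (integrable_phi m (p a)) (integrable_phi m (p b)),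
      L1.norm_of_fun_eq_integral_norm]
    rfl
  have hint : ∀ a b : SimpleFunc W ℕ,
      Integrable (fun w => ‖phi lam m a w - phi lam m b w‖) lam := fun a b =>
    ((integrable_phi m a).sub (integrable_phi m b)).norm
  have hcau : CauchySeq F := by
    refine cauchySeq_of_le_geometric (1 / 2) 2 (by norm_num) fun n => ?_
    rw [hdist]
    have h1 := hp n (join (p n) (p (n + 1))) (fun k => (Nat.unpair k).1) (join_left _ _)
    have h2 := hp (n + 1) (join (p n) (p (n + 1))) (fun k => (Nat.unpair k).2) (join_right _ _)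
    set q := join (p n) (p (n + 1))
    have h3 : ∫ w, ‖phi lam m (p n) w - phi lam m (p (n + 1)) w‖ ∂lam ≤
        ∫ w, (‖phi lam m q w - phi lam m (p n) w‖ +
          ‖phi lam m q w - phi lam m (p (n + 1)) w‖) ∂lam := by
      refine integral_mono (hint _ _) ((hint _ _).add (hint _ _)) fun w => ?_
      have := norm_sub_le (phi lam m q w - phi lam m (p (n + 1)) w)
        (phi lam m q w - phi lam m (p n) w)
      rw [show phi lam m q w - phi lam m (p (n + 1)) w - (phi lam m q w - phi lam m (p n) w) =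
        phi lam m (p n) w - phi lam m (p (n + 1)) w by abel] at this
      simp only
      linarith
    rw [integral_add (hint _ _) (hint _ _)] at h3
    have h4 : (1 / 2 : ℝ) ^ (n + 1) ≤ (1 / 2 : ℝ) ^ n :=
      pow_le_pow_of_le_one (by norm_num) (by norm_num) (by omega)
    linarith
  obtain ⟨f, hf⟩ := cauchySeq_tendsto_of_complete hcau
  refine ⟨f, L1.integrable_coeFn f, fun A hA => ?_⟩
  have h1 : Tendsto (fun n => ∫ w in A, F n w ∂lam) atTop (𝓝 (∫ w in A, f w ∂lam)) :=
    ((continuous_setIntegral A).tendsto f).comp hf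
  have h2 : ∀ n, ∫ w in A, F n w ∂lam = ∫ w in A, phi lam m (p n) w ∂lam := fun n =>
    setIntegral_congr_ae hA (by
      filter_upwards [(integrable_phi m (p n)).coeFn_toL1] with w hw _
      exact hw)
  have h3 : ∀ n, dist (∫ w in A, F n w ∂lam) (m A) ≤ (1 / 2 : ℝ) ^ n := by
    intro n
    rw [h2, dist_eq_norm]
    classical
    let c : SimpleFunc W ℕ := SimpleFunc.piecewise A hA (SimpleFunc.const W 1)
      (SimpleFunc.const W 0)
    have hc : ∀ w, c w = if w ∈ A then 1 else 0 := by
      intro w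
      show (SimpleFunc.piecewise A hA (SimpleFunc.const W 1) (SimpleFunc.const W 0)) w = _
      rw [SimpleFunc.piecewise_apply]
      rfl
    have hA2 : A = join (p n) c ⁻¹' {k | (Nat.unpair k).2 = 1} := by
      ext w
      simp only [mem_preimage]
      show _ ↔ (Nat.unpair (join (p n) c w)).2 = 1
      rw [← join_right, hc]
      split_ifs with h <;> simp [h]
    have h4 := setIntegral_phi m hm (join (p n) c) {k | (Nat.unpair k).2 = 1}
    rw [← hA2] at h4
    rw [← h4, ← integral_sub (integrable_phi m _).integrableOn (integrable_phi m _).integrableOn]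
    refine (norm_integral_le_integral_norm _).trans ?_
    refine le_trans ?_ (hp n (join (p n) c) (fun k => (Nat.unpair k).1) (join_left _ _))
    refine le_trans (setIntegral_le_integral ?_ ?_) (le_of_eq ?_)
    · exact ((integrable_phi m (p n)).sub (integrable_phi m (join (p n) c))).norm
    · exact Eventually.of_forall fun w => norm_nonneg _
    · congr 1
      funext w
      exact norm_sub_rev _ _
  have h5 : Tendsto (fun n => ∫ w in A, F n w ∂lam) atTop (𝓝 (m A)) := by
    rw [tendsto_iff_dist_tendsto_zero]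
    refine squeeze_zero (fun _ => dist_nonneg) h3 ?_
    exact tendsto_pow_atTop_nhds_zero_of_lt_one (by norm_num) (by norm_num)
  exact tendsto_nhds_unique h5 h1

/-- If there is no density, there is an increasing sequence of finite partitions along which the
averages oscillate. -/
theorem exists_seq [CompleteSpace Y] (hm : ∀ A, MeasurableSet A → ‖m A‖ ≤ lam.real A)
    (h : ¬ ∃ f : W → Y, Integrable f lam ∧ ∀ A, MeasurableSet A → m A = ∫ w in A, f w ∂lam) :
    ∃ ε > 0, ∃ (p : ℕ → SimpleFunc W ℕ) (r : ℕ → ℕ → ℕ), (∀ n w, p n w = r n (p (n + 1) w)) ∧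
      ∀ n, ε ≤ ∫ w, ‖phi lam m (p (n + 1)) w - phi lam m (p n) w‖ ∂lam := by
  have h1 : ¬ CP lam m := fun hc => h (density_of_CP m hm hc)
  unfold CP at h1
  push Not at h1
  obtain ⟨ε, hε, hstep⟩ := h1
  choose q r hqr hq using hstep
  let p : ℕ → SimpleFunc W ℕ := fun n => Nat.rec (SimpleFunc.const W 0) (fun _ p => q p) n
  exact ⟨ε, hε, p, fun n => r (p n), fun n w => hqr (p n) w, fun n => (hq (p n)).le⟩

end Pool.Agent.R475.RNP
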