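import Mathlib
import Pool.Agent.Y694.BT.Sier

/-!
Realising a refining sequence of finite partitions on an atomless probability space.
-/

set_option autoImplicit false

open MeasureTheory Filter Topology Set
open Pool.Agent.Y694.BT (Atomless t_sie)

namespace Pool.Agent.R475.RNP

universe u v

variable {Ω : Type u} [MeasurableSpace Ω] {μ : Measure Ω} [IsProbabilityMeasure μ]

theorem split (hμ : Atomless μ) (c : Ω → ℕ) (hc : Measurable c) (r : ℕ → ℕ) (w : Measure ℕ)
    [IsProbabilityMeasure w] (h : w.map r = μ.map c) :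
    ∃ c' : Ω → ℕ, Measurable c' ∧ μ.map c' = w ∧ ∀ᵐ ω ∂μ, c ω = r (c' ω) := by
  classical
  have hr : Measurable r := measurable_of_countable r
  have hck : ∀ k, μ (c ⁻¹' {k}) = w (r ⁻¹' {k}) := by
    intro k
    rw [← Measure.map_apply hc (measurableSet_singleton k), ← h,
      Measure.map_apply hr (measurableSet_singleton k)]
  -- the step
  let Q : ℕ → Set Ω → Set Ω → Prop := fun n G F =>
    F ⊆ c ⁻¹' {r n} \ G ∧ MeasurableSet F ∧ μ F = w {n}
  let nx : ℕ → Set Ω → Set Ω := fun n G => if hF : ∃ F, Q n G F then hF.choose else ∅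
  let G : ℕ → Set Ω := fun n => Nat.rec ∅ (fun n G => G ∪ nx n G) n
  have hG0 : G 0 = ∅ := rfl
  have hG1 : ∀ n, G (n + 1) = G n ∪ nx n (G n) := fun n => rfl
  have hinv : ∀ n, MeasurableSet (G n) ∧
      ∀ k, μ (c ⁻¹' {k} ∩ G n) = w ({i | i < n} ∩ r ⁻¹' {k}) := by
    intro n
    induction n with
    | zero => rw [hG0]; simp
    | succ n ih => 
      obtain ⟨ih1, ih2⟩ := ih
      have hex : ∃ F, Q n (G n) F := by
        have hle : w {n} ≤ μ (c ⁻¹' {r n} \ G n) := by
          have h1 : μ (c ⁻¹' {r n} \ G n) = w (r ⁻¹' {r n}) - w ({i | i < n} ∩ r ⁻¹' {r n}) := by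
            rw [← hck, ← ih2, ← Set.sdiff_self_inter (s := c ⁻¹' {r n}), measure_sdiff inter_subset_left
              ((hc (measurableSet_singleton _)).inter ih1).nullMeasurableSet (measure_ne_top _ _)]
          rw [h1, ← measure_sdiff inter_subset_right (MeasurableSet.of_discrete).nullMeasurableSet
            (measure_ne_top _ _)]
          refine measure_mono ?_
          intro i hi
          rw [mem_singleton_iff] at hi
          subst hi
          simp
        obtain ⟨F, hF1, hF2, hF3⟩ := t_sie Ω μ hμ (c ⁻¹' {r n} \ G n)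
          ((hc (measurableSet_singleton _)).diff ih1) _ hle
        exact ⟨F, hF1, hF2, hF3⟩
      have hnx : Q n (G n) (nx n (G n)) := by
        show Q n (G n) (if hF : ∃ F, Q n (G n) F then hF.choose else ∅)
        rw [dif_pos hex]
        exact hex.choose_spec
      obtain ⟨q1, q2, q3⟩ := hnx
      refine ⟨by rw [hG1]; exact ih1.union q2, fun k => ?_⟩
      rw [hG1, inter_union_distrib_left, measure_union _ ((hc (measurableSet_singleton _)).inter q2),
        ih2]
      · by_cases hk : r n = k
        · have h1 : c ⁻¹' {k} ∩ nx n (G n) = nx n (G n) := by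
            apply inter_eq_right.2
            rw [← hk]
            exact q1.trans sdiff_subset
          have h2 : {i | i < n + 1} ∩ r ⁻¹' {k} = ({i | i < n} ∩ r ⁻¹' {k}) ∪ {n} := by
            ext i
            simp only [mem_inter_iff, Set.mem_ofPred_eq, mem_preimage, mem_singleton_iff, mem_union]
            constructor
            · rintro ⟨h3, h4⟩
              by_cases h5 : i = n
              · exact Or.inr h5
              · exact Or.inl ⟨by omega, h4⟩
            · rintro (⟨h3, h4⟩ | rfl)
              · exact ⟨by omega, h4⟩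
              · exact ⟨by omega, hk⟩
          rw [h1, h2, q3, measure_union _ (measurableSet_singleton _)]
          rw [Set.disjoint_singleton_right]
          rintro ⟨h3, -⟩
          exact lt_irrefl n h3
        · have h1 : c ⁻¹' {k} ∩ nx n (G n) = ∅ := by
            rw [← disjoint_iff_inter_eq_empty, Set.disjoint_left]
            intro ω h2 h3
            apply hk
            have h4 := (q1 h3).1
            simp only [mem_preimage, mem_singleton_iff] at h2 h4
            rw [← h2, h4]
          have h2 : {i | i < n + 1} ∩ r ⁻¹' {k} = ({i | i < n} ∩ r ⁻¹' {k}) := by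
            ext i
            simp only [mem_inter_iff, Set.mem_ofPred_eq, mem_preimage, mem_singleton_iff]
            constructor
            · rintro ⟨h3, h4⟩
              by_cases h5 : i = n
              · exact absurd (h5 ▸ h4) hk
              · exact ⟨by omega, h4⟩
            · rintro ⟨h3, h4⟩
              exact ⟨by omega, h4⟩
          rw [h1, h2]; simp
      · refine Set.disjoint_left.2 fun ω h2 h3 => ?_
        exact (q1 h3.2).2 h2.2
  have hQ : ∀ n, Q n (G n) (nx n (G n)) := by
    intro n
    obtain ⟨ih1, ih2⟩ := hinv n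
    have hex : ∃ F, Q n (G n) F := by
      have hle : w {n} ≤ μ (c ⁻¹' {r n} \ G n) := by
        have h1 : μ (c ⁻¹' {r n} \ G n) = w (r ⁻¹' {r n}) - w ({i | i < n} ∩ r ⁻¹' {r n}) := by
          rw [← hck, ← ih2, ← Set.sdiff_self_inter (s := c ⁻¹' {r n}), measure_sdiff inter_subset_left
            ((hc (measurableSet_singleton _)).inter ih1).nullMeasurableSet (measure_ne_top _ _)]
        rw [h1, ← measure_sdiff inter_subset_right (MeasurableSet.of_discrete).nullMeasurableSet
          (measure_ne_top _ _)]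
        refine measure_mono ?_
        intro i hi
        rw [mem_singleton_iff] at hi
        subst hi
        simp
      obtain ⟨F, hF1, hF2, hF3⟩ := t_sie Ω μ hμ (c ⁻¹' {r n} \ G n)
        ((hc (measurableSet_singleton _)).diff ih1) _ hle
      exact ⟨F, hF1, hF2, hF3⟩
    show Q n (G n) (if hF : ∃ F, Q n (G n) F then hF.choose else ∅)
    rw [dif_pos hex]
    exact hex.choose_spec
  let F : ℕ → Set Ω := fun n => nx n (G n)
  have hF : ∀ n, F n ⊆ c ⁻¹' {r n} \ G n ∧ MeasurableSet (F n) ∧ μ (F n) = w {n} := hQ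
  have hGmono : Monotone G := monotone_nat_of_le_succ fun n => by
    rw [hG1]; exact subset_union_left
  have hFG : ∀ n, F n ⊆ G (n + 1) := fun n => by
    rw [hG1]; exact subset_union_right
  have hdis : ∀ i j, i < j → Disjoint (F i) (F j) := by
    intro i j hij
    refine Set.disjoint_left.2 fun ω h1 h2 => ?_
    exact ((hF j).1 h2).2 (hGmono (by omega : i + 1 ≤ j) (hFG i h1))
  have hdis' : Pairwise (Function.onFun Disjoint F) := by
    intro i j hij
    rcases lt_or_gt_of_ne hij with h1 | h1
    · exact hdis i j h1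
    · exact (hdis j i h1).symm
  have hfull : μ (⋃ n, F n)ᶜ = 0 := by
    have h1 : μ (⋃ n, F n) = 1 := by
      rw [measure_iUnion hdis' fun n => (hF n).2.1]
      have h2 : ∀ n, μ (F n) = w {n} := fun n => (hF n).2.2
      simp_rw [h2]
      rw [← measure_iUnion (fun i j hij => by simpa using hij) fun n => measurableSet_singleton n,
        iUnion_of_singleton, measure_univ]
    rw [prob_compl_eq_zero_iff (MeasurableSet.iUnion fun n => (hF n).2.1)]
    exact h1
  let c' : Ω → ℕ := fun ω => if hω : ∃ n, ω ∈ F n then Nat.find hω else 0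
  have hc'F : ∀ n ω, ω ∈ F n → c' ω = n := by
    intro n ω hω
    have hex : ∃ n, ω ∈ F n := ⟨n, hω⟩
    show (if hω : ∃ n, ω ∈ F n then Nat.find hω else 0) = n
    rw [dif_pos hex]
    by_contra hne
    exact Set.disjoint_left.1 (hdis' hne) (Nat.find_spec hex) hω
  have hpre : ∀ n, c' ⁻¹' {n} = F n ∪ (if n = 0 then (⋃ n, F n)ᶜ else ∅) := by
    intro n
    ext ω
    simp only [mem_preimage, mem_singleton_iff, mem_union]
    by_cases hex : ∃ n, ω ∈ F n
    · obtain ⟨k, hk⟩ := hex
      rw [hc'F k ω hk]
      constructor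
      · rintro rfl; exact Or.inl hk
      · rintro (h1 | h1)
        · exact (hc'F k ω hk).symm.trans (hc'F n ω h1)
        · exfalso
          split_ifs at h1
          · exact h1 (mem_iUnion.2 ⟨k, hk⟩)
          · exact h1
    · have h1 : c' ω = 0 := by
        show (if hω : ∃ n, ω ∈ F n then Nat.find hω else 0) = 0
        rw [dif_neg hex]
      rw [h1]
      have h2 : ω ∈ (⋃ n, F n)ᶜ := fun h3 => hex (mem_iUnion.1 h3)
      constructor
      · rintro rfl; right; rw [if_pos rfl]; exact h2
      · rintro (h3 | h3)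
        · exact absurd ⟨n, h3⟩ hex
        · by_contra hne
          rw [if_neg (fun h4 => hne h4.symm)] at h3
          exact h3
  have hmU : MeasurableSet (⋃ n, F n)ᶜ := (MeasurableSet.iUnion fun n => (hF n).2.1).compl
  have hmeas : Measurable c' := by
    refine measurable_to_countable' fun n => ?_
    rw [hpre]
    refine (hF n).2.1.union ?_
    split_ifs
    · exact hmU
    · exact MeasurableSet.empty
  refine ⟨c', hmeas, ?_, ?_⟩
  · refine Measure.ext_of_singleton fun n => ?_
    rw [Measure.map_apply hmeas (measurableSet_singleton n), hpre]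
    have h1 : μ (if n = 0 then (⋃ n, F n)ᶜ else ∅) = 0 := by
      split_ifs
      · exact hfull
      · simp
    rw [measure_congr (union_ae_eq_left_of_ae_eq_empty (ae_eq_empty.2 h1)), (hF n).2.2]
  · have h1 : ∀ᵐ ω ∂μ, ω ∈ ⋃ n, F n := by
      rw [ae_iff]; exact hfull
    filter_upwards [h1] with ω hω
    obtain ⟨n, hn⟩ := mem_iUnion.1 hω
    rw [hc'F n ω hn]
    exact ((hF n).1 hn).1

theorem transfer (hμ : Atomless μ) {W : Type v} [MeasurableSpace W] (lam : Measure W)
    [IsProbabilityMeasure lam] (p : ℕ → W → ℕ) (hp : ∀ n, Measurable (p n)) (r : ℕ → ℕ → ℕ)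
    (hr : ∀ n w, p n w = r n (p (n + 1) w)) :
    ∃ P : ℕ → Ω → ℕ, (∀ n, Measurable (P n)) ∧ (∀ n, μ.map (P n) = lam.map (p n)) ∧
      ∀ n, ∀ᵐ ω ∂μ, P n ω = r n (P (n + 1) ω) := by
  have hL : ∀ n, IsProbabilityMeasure (lam.map (p n)) := fun n =>
    Measure.isProbabilityMeasure_map (hp n).aemeasurable
  have h0 : ∃ c' : Ω → ℕ, Measurable c' ∧ μ.map c' = lam.map (p 0) := by
    obtain ⟨c', h1, h2, -⟩ := split hμ (fun _ => 0) measurable_const (fun _ => 0) (lam.map (p 0))
      (by rw [Measure.map_const, Measure.map_const, measure_univ, measure_univ])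
    exact ⟨c', h1, h2⟩
  have hstep : ∀ n, ∀ c : {c : Ω → ℕ // Measurable c ∧ μ.map c = lam.map (p n)},
      ∃ c' : {c : Ω → ℕ // Measurable c ∧ μ.map c = lam.map (p (n + 1))},
        ∀ᵐ ω ∂μ, c.1 ω = r n (c'.1 ω) := by
    rintro n ⟨c, hc1, hc2⟩
    obtain ⟨c', h1, h2, h3⟩ := split hμ c hc1 (r n) (lam.map (p (n + 1))) (by
      rw [hc2, Measure.map_map (measurable_of_countable _) (hp _)]
      congr 1
      funext w
      exact (hr n w).symm)
    exact ⟨⟨c', h1, h2⟩, h3⟩
  choose f hf using hstep
  obtain ⟨c0, hc0⟩ := h0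
  let P : (n : ℕ) → {c : Ω → ℕ // Measurable c ∧ μ.map c = lam.map (p n)} := fun n =>
    Nat.rec ⟨c0, hc0⟩ (fun n c => f n c) n
  exact ⟨fun n => (P n).1, fun n => (P n).2.1, fun n => (P n).2.2, fun n => hf n (P n)⟩

end Pool.Agent.R475.RNP
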