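import Mathlib
import Pool.Agent.R475.RNP.Mart
import Pool.Agent.R475.RNP.Part
import Pool.Agent.R475.RNP.Transfer

/-!
Norm attainment on `L^q(μ, X^*)` implies the Radon-Nikodym property of `X^*`.
-/

set_option autoImplicit false

open MeasureTheory Filter Topology Set
open scoped ENNReal
open Pool.Agent.Y694.BT (Atomless)

namespace Pool.Agent.R475.RNP

section core

variable {Ω : Type*} [MeasurableSpace Ω] {μ : Measure Ω} [IsProbabilityMeasure μ]
variable {𝕜 : Type*} [RCLike 𝕜] {X : Type*} [NormedAddCommGroup X] [NormedSpace 𝕜 X]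
  [NormedSpace ℝ X] [IsScalarTower ℝ 𝕜 X]
variable {p q : ℝ≥0∞} [Fact (1 ≤ p)] [Fact (1 ≤ q)] [ENNReal.HolderConjugate q p]

/-- The real functional given by `g`. -/
noncomputable def pr (g : Lp (StrongDual 𝕜 X) q μ) : Lp X p μ →L[ℝ] ℝ :=
  (RCLike.reCLM (K := 𝕜)).comp
    (((ContinuousLinearMap.id 𝕜 (StrongDual 𝕜 X)).lpPairing μ q p g).restrictScalars ℝ)

theorem pr_apply (g : Lp (StrongDual 𝕜 X) q μ) (f : Lp X p μ) :
    pr g f = RCLike.re (∫ ω, g ω (f ω) ∂μ) := by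
  show RCLike.re ((ContinuousLinearMap.id 𝕜 (StrongDual 𝕜 X)).lpPairing μ q p g f) = _
  rw [ContinuousLinearMap.lpPairing_eq_integral]
  rfl

theorem pr_norm {g : Lp (StrongDual 𝕜 X) q μ} (hg : ‖g‖ ≤ 1) :
    ‖(pr g : Lp X p μ →L[ℝ] ℝ)‖ ≤ 1 := by
  refine ContinuousLinearMap.opNorm_le_bound _ zero_le_one fun f => ?_
  rw [pr_apply, Real.norm_eq_abs]
  refine (RCLike.abs_re_le_norm _).trans ?_
  have h1 : ∫ ω, g ω (f ω) ∂μ =
      ∫ ω, (ContinuousLinearMap.id 𝕜 (StrongDual 𝕜 X)).holder 1 g f ω ∂μ := by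
    refine integral_congr_ae ?_
    filter_upwards [ContinuousLinearMap.coeFn_holder (r := 1)
      (ContinuousLinearMap.id 𝕜 (StrongDual 𝕜 X)) g f] with ω hω
    rw [hω]; rfl
  rw [h1]
  refine (norm_integral_le_integral_norm _).trans ?_
  rw [← L1.norm_eq_integral_norm]
  refine (ContinuousLinearMap.norm_holder_apply_apply_le _ _ _).trans ?_
  have h2 := ContinuousLinearMap.norm_id_le (𝕜 := 𝕜) (E := StrongDual 𝕜 X)
  calc ‖ContinuousLinearMap.id 𝕜 (StrongDual 𝕜 X)‖ * ‖g‖ * ‖f‖ ≤ 1 * 1 * ‖f‖ := by gcongr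
    _ = 1 * ‖f‖ := by ring

theorem core [CompleteSpace X] {P : ℕ → Ω → ℕ} (hP : ∀ n, Measurable (P n)) {r : ℕ → ℕ → ℕ}
    (hr : ∀ n, ∀ᵐ ω ∂μ, P n ω = r n (P (n + 1) ω)) {s : ℕ → ℕ → StrongDual 𝕜 X}
    (hs : ∀ n k, ‖s n k‖ ≤ 1)
    (hmart : ∀ (n : ℕ) (T : ℕ → X) (C : ℝ), (∀ k, ‖T k‖ ≤ C) →
      ∫ ω, s (n + 1) (P (n + 1) ω) (T (P n ω)) ∂μ = ∫ ω, s n (P n ω) (T (P n ω)) ∂μ)
    {ε : ℝ} (hε : 0 < ε)
    (hosc : ∀ n, ε ≤ ∫ ω, ‖s (n + 1) (P (n + 1) ω) - s n (r n (P (n + 1) ω))‖ ∂μ)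
    (hatt : ∀ f : Lp X p μ, ∃ g : Lp (StrongDual 𝕜 X) q μ, ‖g‖ ≤ 1 ∧
      ∫ ω, g ω (f ω) ∂μ = ((‖f‖ : ℝ) : 𝕜)) : False := by
  have hny : ∀ n j, ∃ y : X, ‖y‖ ≤ 1 ∧ ‖s (n + 1) j - s n (r n j)‖ - ε / 4 ≤
      RCLike.re ((s (n + 1) j - s n (r n j)) y) := fun n j =>
    exists_norming _ (by positivity)
  choose y hy hy2 using hny
  -- general integrability
  have hsi : ∀ n, Integrable (fun ω => s n (P n ω)) μ := fun n =>
    Integrable.of_bound (sm_comp _ (hP n)).aestronglyMeasurable 1 (Eventually.of_forall fun ω => hs _ _)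
  have hTi : ∀ {g : Ω → StrongDual 𝕜 X}, Integrable g μ → ∀ (T : ℕ → X) (C : ℝ), (∀ k, ‖T k‖ ≤ C) →
      ∀ n, Integrable (fun ω => g ω (T (P n ω))) μ := fun hg T C hT n =>
    int_apply hg (sm_comp T (hP n)).aestronglyMeasurable (fun ω => hT (P n ω))
  -- the martingale property over several steps
  have hmart' : ∀ (a m : ℕ), a ≤ m → ∀ (T : ℕ → X) (C : ℝ), (∀ k, ‖T k‖ ≤ C) →
      ∫ ω, s m (P m ω) (T (P a ω)) ∂μ = ∫ ω, s a (P a ω) (T (P a ω)) ∂μ := by
    intro a m ham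
    induction m, ham using Nat.le_induction with
    | base => intro T C _; rfl
    | succ m ham ih =>
      intro T C hT
      rw [← ih T C hT]
      obtain ⟨ρ, hρ⟩ := rho hr ham
      have h1 : ∫ ω, s (m + 1) (P (m + 1) ω) (T (P a ω)) ∂μ =
          ∫ ω, s (m + 1) (P (m + 1) ω) ((T ∘ ρ) (P m ω)) ∂μ := by
        refine integral_congr_ae ?_
        filter_upwards [hρ] with ω hω
        rw [hω]; rfl
      have h2 : ∫ ω, s m (P m ω) (T (P a ω)) ∂μ = ∫ ω, s m (P m ω) ((T ∘ ρ) (P m ω)) ∂μ := by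
        refine integral_congr_ae ?_
        filter_upwards [hρ] with ω hω
        rw [hω]; rfl
      rw [h1, h2]
      exact hmart m _ C fun k => hT _
  have hxG : ∀ n, ∀ᵐ ω ∂μ, xx μ P y n ω = (fun j => y n j - zz μ P y n (r n j)) (P (n + 1) ω) := by
    intro n
    filter_upwards [hr n] with ω h2
    show y n (P (n + 1) ω) - zz μ P y n (P n ω) = y n (P (n + 1) ω) - zz μ P y n (r n (P (n + 1) ω))
    rw [← h2]
  have hz : ∀ n k, ‖zz μ P y n k‖ ≤ 1 := fun n k => cexp_norm _ _ (fun ω => hy _ _) _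
  have hGb : ∀ n j, ‖(fun j => y n j - zz μ P y n (r n j)) j‖ ≤ 2 := fun n j =>
    (norm_sub_le _ _).trans (by linarith [hy n j, hz n (r n j)])
  have stepB : ∀ n m, n + 1 ≤ m → ∫ ω, s m (P m ω) (xx μ P y n ω) ∂μ =
      ∫ ω, s (n + 1) (P (n + 1) ω) (xx μ P y n ω) ∂μ := by
    intro n m hnm
    have h1 : ∀ m, ∫ ω, s m (P m ω) (xx μ P y n ω) ∂μ =
        ∫ ω, s m (P m ω) ((fun j => y n j - zz μ P y n (r n j)) (P (n + 1) ω)) ∂μ := by
      intro m
      refine integral_congr_ae ?_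
      filter_upwards [hxG n] with ω hω
      rw [hω]
    rw [h1, h1]
    exact hmart' _ _ hnm _ 2 (hGb n)
  have stepA : ∀ n, 3 / 4 * ε ≤ RCLike.re (∫ ω, s (n + 1) (P (n + 1) ω) (xx μ P y n ω) ∂μ) := by
    intro n
    have e1 : Integrable (fun ω => s (n + 1) (P (n + 1) ω) (y n (P (n + 1) ω))) μ :=
      hTi (hsi (n + 1)) (y n) 1 (hy n) (n + 1)
    have e2 : Integrable (fun ω => s (n + 1) (P (n + 1) ω) (zz μ P y n (P n ω))) μ :=
      hTi (hsi (n + 1)) (zz μ P y n) 1 (hz n) n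
    have e3 : Integrable (fun ω => s n (P n ω) (y n (P (n + 1) ω))) μ :=
      hTi (hsi n) (y n) 1 (hy n) (n + 1)
    have e4 : Integrable (fun ω => s n (P n ω) (zz μ P y n (P n ω))) μ :=
      hTi (hsi n) (zz μ P y n) 1 (hz n) n
    have h1 : ∫ ω, s (n + 1) (P (n + 1) ω) (xx μ P y n ω) ∂μ =
        ∫ ω, s (n + 1) (P (n + 1) ω) (y n (P (n + 1) ω)) ∂μ -
          ∫ ω, s (n + 1) (P (n + 1) ω) (zz μ P y n (P n ω)) ∂μ := by
      rw [← integral_sub e1 e2]
      refine integral_congr_ae (Eventually.of_forall fun ω => ?_)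
      simp only [xx, map_sub]
    have h2 : ∫ ω, s n (P n ω) (y n (P (n + 1) ω)) ∂μ -
        ∫ ω, s n (P n ω) (zz μ P y n (P n ω)) ∂μ = 0 := by
      rw [← integral_sub e3 e4]
      rw [← xx_orth (μ := μ) (y := y) hP hy n (s n) (hs n)]
      refine integral_congr_ae (Eventually.of_forall fun ω => ?_)
      simp only [xx, map_sub]
    have h3 := hmart n (zz μ P y n) 1 (hz n)
    have h4 : ∫ ω, s (n + 1) (P (n + 1) ω) (xx μ P y n ω) ∂μ =
        ∫ ω, (s (n + 1) (P (n + 1) ω) - s n (P n ω)) (y n (P (n + 1) ω)) ∂μ := by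
      have h5 : ∫ ω, (s (n + 1) (P (n + 1) ω) - s n (P n ω)) (y n (P (n + 1) ω)) ∂μ =
          ∫ ω, s (n + 1) (P (n + 1) ω) (y n (P (n + 1) ω)) ∂μ -
            ∫ ω, s n (P n ω) (y n (P (n + 1) ω)) ∂μ := by
        rw [← integral_sub e1 e3]
        refine integral_congr_ae (Eventually.of_forall fun ω => ?_)
        simp only [sub_apply]
      rw [h5, h1, h3, sub_eq_zero.1 h2]
    rw [h4]
    have e5 : Integrable (fun ω => (s (n + 1) (P (n + 1) ω) - s n (P n ω)) (y n (P (n + 1) ω))) μ :=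
      hTi ((hsi (n + 1)).sub (hsi n)) (y n) 1 (hy n) (n + 1)
    have e6 := integral_re e5
    rw [← e6]
    have e8 : Integrable (fun ω => ‖s (n + 1) (P (n + 1) ω) - s n (r n (P (n + 1) ω))‖) μ :=
      ((hsi (n + 1)).sub (Integrable.of_bound
        (sm_comp (fun j => s n (r n j)) (hP (n + 1))).aestronglyMeasurable 1
        (Eventually.of_forall fun ω => hs _ _))).norm
    have e7 : Integrable (fun ω => ‖s (n + 1) (P (n + 1) ω) - s n (r n (P (n + 1) ω))‖ - ε / 4) μ :=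
      e8.sub (integrable_const _)
    have h6 : ∫ ω, (‖s (n + 1) (P (n + 1) ω) - s n (r n (P (n + 1) ω))‖ - ε / 4) ∂μ ≤
        ∫ ω, RCLike.re ((s (n + 1) (P (n + 1) ω) - s n (P n ω)) (y n (P (n + 1) ω))) ∂μ := by
      refine integral_mono_ae e7 e5.re ?_
      filter_upwards [hr n] with ω hω
      have := hy2 n (P (n + 1) ω)
      rw [← hω] at this ⊢
      exact this
    rw [integral_sub e8 (integrable_const _)] at h6
    have h7 := hosc n
    simp only [integral_const, probReal_univ, one_smul] at h6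
    linarith
  -- elements of Lp
  have hx : ∀ n, MemLp (xx μ P y n) p μ := fun n =>
    MemLp.of_bound (xx_sm (μ := μ) (y := y) hP n).aestronglyMeasurable 2
      (Eventually.of_forall (xx_norm hy n))
  have hphi : ∀ n, MemLp (fun ω => s n (P n ω)) q μ := fun n =>
    MemLp.of_bound (sm_comp _ (hP n)).aestronglyMeasurable 1 (Eventually.of_forall fun ω => hs _ _)
  let x : ℕ → Lp X p μ := fun n => (hx n).toLp
  let φ : ℕ → Lp (StrongDual 𝕜 X) q μ := fun n => (hphi n).toLp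
  have hxc : ∀ n, ∀ᵐ ω ∂μ, x n ω = xx μ P y n ω := fun n => (hx n).coeFn_toLp
  have hφc : ∀ n, ∀ᵐ ω ∂μ, φ n ω = s n (P n ω) := fun n => (hphi n).coeFn_toLp
  have hxn : ∀ n, ‖x n‖ ≤ 2 := by
    intro n
    have h1 : ∀ᵐ ω ∂μ, ‖x n ω‖ ≤ 2 := by
      filter_upwards [hxc n] with ω hω
      rw [hω]
      exact xx_norm hy n ω
    have h2 := Lp.norm_le_of_ae_bound (by norm_num) h1
    simpa [measureUnivNNReal] using h2
  have hφn : ∀ n, ‖φ n‖ ≤ 1 := by
    intro n
    have h1 : ∀ᵐ ω ∂μ, ‖φ n ω‖ ≤ 1 := by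
      filter_upwards [hφc n] with ω hω
      rw [hω]
      exact hs _ _
    have h2 := Lp.norm_le_of_ae_bound (by norm_num) h1
    simpa [measureUnivNNReal] using h2
  have hprx : ∀ (g : Lp (StrongDual 𝕜 X) q μ) n, pr g (x n) =
      RCLike.re (∫ ω, g ω (xx μ P y n ω) ∂μ) := by
    intro g n
    rw [pr_apply]
    congr 1
    refine integral_congr_ae ?_
    filter_upwards [hxc n] with ω hω
    rw [hω]
  have hprφ : ∀ m n, pr (φ m) (x n) = RCLike.re (∫ ω, s m (P m ω) (xx μ P y n ω) ∂μ) := by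
    intro m n
    rw [hprx]
    congr 1
    refine integral_congr_ae ?_
    filter_upwards [hφc m] with ω hω
    rw [hω]
  -- the functional
  let B : ℕ → WeakDual ℝ (Lp X p μ) := fun n => StrongDual.toWeakDual (pr (φ n))
  have hK : IsCompact (WeakDual.toStrongDual ⁻¹' Metric.closedBall (0 : StrongDual ℝ (Lp X p μ)) 1) :=
    WeakDual.isCompact_closedBall _ _
  have hBK : ((hyperfilter ℕ).map B : Filter (WeakDual ℝ (Lp X p μ))) ≤
      𝓟 (WeakDual.toStrongDual ⁻¹' Metric.closedBall (0 : StrongDual ℝ (Lp X p μ)) 1) := by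
    rw [le_principal_iff]
    show ∀ᶠ n in (hyperfilter ℕ : Filter ℕ), B n ∈ _
    refine Eventually.of_forall fun n => ?_
    show pr (φ n) ∈ Metric.closedBall (0 : StrongDual ℝ (Lp X p μ)) 1
    rw [mem_closedBall_zero_iff]
    exact pr_norm (hφn n)
  obtain ⟨Φ0, hΦ0, hlim⟩ := hK.ultrafilter_le_nhds _ hBK
  let Φ : Lp X p μ →L[ℝ] ℝ := WeakDual.toStrongDual Φ0
  have hΦn : ‖Φ‖ ≤ 1 := mem_closedBall_zero_iff.1 hΦ0
  have hev : ∀ f : Lp X p μ, Tendsto (fun n => pr (φ n) f) (hyperfilter ℕ : Filter ℕ) (𝓝 (Φ f)) := by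
    intro f
    have h1 : Tendsto B (hyperfilter ℕ : Filter ℕ) (𝓝 Φ0) := hlim
    exact ((WeakDual.eval_continuous f).tendsto Φ0).comp h1
  have hΦx : ∀ n, 3 / 4 * ε ≤ Φ (x n) := by
    intro n
    refine ge_of_tendsto (hev (x n)) ?_
    have h1 : ∀ᶠ m in (hyperfilter ℕ : Filter ℕ), n + 1 ≤ m :=
      Nat.hyperfilter_le_atTop (eventually_ge_atTop (n + 1))
    filter_upwards [h1] with m hm
    rw [hprφ, stepB n m hm]
    exact stepA n
  -- Simons
  let u : ℕ → Lp X p μ := fun n => (1 / 2 : ℝ) • x n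
  have hu : ∀ n, ‖u n‖ ≤ 1 := by
    intro n
    show ‖(1 / 2 : ℝ) • x n‖ ≤ 1
    rw [norm_smul]
    have := hxn n
    norm_num
    linarith
  obtain ⟨w, hw, hw2⟩ := simons u hu 0 1 one_pos (3 / 8 * ε) (3 / 16 * ε) (by positivity) (by
    intro z hz
    rw [norm_zero, zero_add, one_mul, zero_add, one_smul]
    have h1 := le_of_K hz Φ (c := 3 / 8 * ε) (by
      intro k _
      show 3 / 8 * ε ≤ Φ ((1 / 2 : ℝ) • x k)
      rw [map_smul, smul_eq_mul]
      linarith [hΦx k])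
    refine h1.trans ((le_abs_self _).trans ?_)
    rw [← Real.norm_eq_abs]
    refine (Φ.le_opNorm z).trans ?_
    calc ‖Φ‖ * ‖z‖ ≤ 1 * ‖z‖ := by gcongr
      _ = ‖z‖ := one_mul _)
  obtain ⟨g, hg1, hg2⟩ := hatt w
  have hb := hw2 (pr g) (pr_norm hg1) (by
    rw [zero_add, one_smul, pr_apply, hg2, RCLike.ofReal_re])
  have hgi : Integrable g μ := (Lp.memLp g).integrable Fact.out
  have ht := tendsto_int hP hr hy hgi
  have ht2 : Tendsto (fun n => pr g (u n)) atTop (𝓝 0) := by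
    have h1 := ht.const_mul (1 / 2)
    simp only [mul_zero] at h1
    refine h1.congr fun n => ?_
    show _ = pr g ((1 / 2 : ℝ) • x n)
    rw [map_smul, smul_eq_mul, hprx]
    congr 1
    exact integral_re (int_apply hgi (xx_sm (μ := μ) (y := y) hP n).aestronglyMeasurable
      (xx_norm hy n))
  obtain ⟨N, hN⟩ := (Metric.tendsto_atTop.1 ht2) (3 / 16 * ε) (by positivity)
  obtain ⟨k, hk, hk2⟩ := hb N
  have h1 := hN k hk
  rw [Real.dist_eq, sub_zero] at h1
  have h2 := le_abs_self (pr g (u k))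
  linarith

end core

section dens

variable {W : Type*} [MeasurableSpace W] {lam : Measure W} [IsFiniteMeasure lam]
variable {𝕜 : Type*} [RCLike 𝕜] {X : Type*} [NormedAddCommGroup X] [NormedSpace 𝕜 X]

/-- The averages of a dual space valued measure form a martingale. -/
theorem phi_mart {m : VectorMeasure W (StrongDual 𝕜 X)}
    (hm : ∀ A, MeasurableSet A → ‖m A‖ ≤ lam.real A) (p₀ q₀ : SimpleFunc W ℕ) (r₀ : ℕ → ℕ)
    (h : ∀ w, p₀ w = r₀ (q₀ w)) (T : ℕ → X) :
    ∫ w, phi lam m q₀ w (T (p₀ w)) ∂lam = ∫ w, phi lam m p₀ w (T (p₀ w)) ∂lam := by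
  classical
  have hint : ∀ π : SimpleFunc W ℕ, Integrable (fun w => phi lam m π w (T (p₀ w))) lam := by
    intro π
    have h1 : StronglyMeasurable fun w => T (p₀ w) := (p₀.map T).stronglyMeasurable
    obtain ⟨C, hC⟩ := (p₀.map T).exists_forall_norm_le
    exact (ContinuousLinearMap.id 𝕜 (StrongDual 𝕜 X)).integrable_of_bilin_of_bdd_right C
      (integrable_phi m π) h1.aestronglyMeasurable (Eventually.of_forall hC)
  have hU : (⋃ k ∈ p₀.range, p₀ ⁻¹' {k}) = univ := by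
    ext w
    simp only [mem_iUnion, mem_preimage, mem_singleton_iff, exists_prop, mem_univ, iff_true,
      SimpleFunc.mem_range, Set.mem_range]
    exact ⟨p₀ w, ⟨w, rfl⟩, rfl⟩
  have hdis : (↑(p₀.range) : Set ℕ).PairwiseDisjoint fun k => p₀ ⁻¹' {k} := by
    intro i _ j _ hij
    refine Set.disjoint_left.2 fun w h1 h2 => hij ?_
    simp only [mem_preimage, mem_singleton_iff] at h1 h2
    rw [← h1, h2]
  have key : ∀ π : SimpleFunc W ℕ, (∀ S : Set ℕ, ∫ w in p₀ ⁻¹' S, phi lam m π w ∂lam =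
      m (p₀ ⁻¹' S)) → ∫ w, phi lam m π w (T (p₀ w)) ∂lam =
        ∑ k ∈ p₀.range, m (p₀ ⁻¹' {k}) (T k) := by
    intro π hπ
    rw [← setIntegral_univ, ← hU, integral_biUnion_finset _
      (fun k _ => p₀.measurableSet_preimage _) hdis (fun k _ => (hint π).integrableOn)]
    refine Finset.sum_congr rfl fun k _ => ?_
    rw [← hπ {k}, ContinuousLinearMap.integral_apply (integrable_phi m π).integrableOn]
    refine setIntegral_congr_fun (p₀.measurableSet_preimage _) fun w hw => ?_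
    simp only [mem_preimage, mem_singleton_iff] at hw
    simp only [hw]
  rw [key q₀ fun S => ?_, key p₀ fun S => ?_]
  · exact setIntegral_phi m hm p₀ S
  · have h1 : p₀ ⁻¹' S = q₀ ⁻¹' (r₀ ⁻¹' S) := by
      ext w
      simp only [mem_preimage, h]
    rw [h1]
    exact setIntegral_phi m hm q₀ _

end dens

/-- The Radon-Nikodym property: every vector measure of bounded variation on a finite measure
space which is absolutely continuous has a Bochner integrable density. -/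
def RNP.{u, v} (Y : Type v) [NormedAddCommGroup Y] [NormedSpace ℝ Y] : Prop :=
  ∀ (W : Type u) [MeasurableSpace W] (ν : Measure W) [IsFiniteMeasure ν]
    (m : VectorMeasure W Y), (∀ A, MeasurableSet A → ν A = 0 → m A = 0) →
    m.variation univ ≠ ∞ →
    ∃ h : W → Y, Integrable h ν ∧ ∀ A, MeasurableSet A → m A = ∫ w in A, h w ∂ν

universe u v w

theorem rnp_prob {Ω : Type u} [MeasurableSpace Ω] {μ : Measure Ω} [IsProbabilityMeasure μ]
    (hμ : Atomless μ) {𝕜 : Type*} [RCLike 𝕜] {X : Type v} [NormedAddCommGroup X] [NormedSpace 𝕜 X]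
    [NormedSpace ℝ X] [IsScalarTower ℝ 𝕜 X] [CompleteSpace X]
    {p q : ℝ≥0∞} [Fact (1 ≤ p)] [Fact (1 ≤ q)] [ENNReal.HolderConjugate q p]
    (hatt : ∀ f : Lp X p μ, ∃ g : Lp (StrongDual 𝕜 X) q μ, ‖g‖ ≤ 1 ∧
      ∫ ω, g ω (f ω) ∂μ = ((‖f‖ : ℝ) : 𝕜))
    {W : Type w} [MeasurableSpace W] (lam : Measure W) [IsProbabilityMeasure lam]
    (m : VectorMeasure W (StrongDual 𝕜 X)) (hm : ∀ A, MeasurableSet A → ‖m A‖ ≤ lam.real A) :
    ∃ h : W → StrongDual 𝕜 X, Integrable h lam ∧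
      ∀ A, MeasurableSet A → m A = ∫ w in A, h w ∂lam := by
  by_contra hcon
  obtain ⟨ε, hε, π, r, hr, hosc⟩ := exists_seq m hm hcon
  obtain ⟨P, hP, hlaw, hPr⟩ := transfer hμ lam (fun n => π n) (fun n => (π n).measurable) r hr
  let s : ℕ → ℕ → StrongDual 𝕜 X := fun n k => avg lam m (π n ⁻¹' {k})
  have hs : ∀ n k, ‖s n k‖ ≤ 1 := fun n k => norm_avg_le m hm ((π n).measurableSet_preimage _)
  have hmap𝕜 : ∀ (n : ℕ) (F : ℕ → 𝕜), ∫ ω, F (P n ω) ∂μ = ∫ w, F (π n w) ∂lam := by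
    intro n F
    rw [← integral_map (hP n).aemeasurable (StronglyMeasurable.of_discrete (f := F)).aestronglyMeasurable,
      hlaw n, integral_map (π n).measurable.aemeasurable
      (StronglyMeasurable.of_discrete (f := F)).aestronglyMeasurable]
  have hmapR : ∀ (n : ℕ) (F : ℕ → ℝ), ∫ ω, F (P n ω) ∂μ = ∫ w, F (π n w) ∂lam := by
    intro n F
    rw [← integral_map (hP n).aemeasurable (StronglyMeasurable.of_discrete (f := F)).aestronglyMeasurable,
      hlaw n, integral_map (π n).measurable.aemeasurable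
      (StronglyMeasurable.of_discrete (f := F)).aestronglyMeasurable]
  refine core (μ := μ) (p := p) (q := q) hP hPr (s := s) hs ?_ hε ?_ hatt
  · intro n T C _
    have h1 : ∫ ω, s (n + 1) (P (n + 1) ω) (T (P n ω)) ∂μ =
        ∫ ω, (fun j => s (n + 1) j (T (r n j))) (P (n + 1) ω) ∂μ := by
      refine integral_congr_ae ?_
      filter_upwards [hPr n] with ω hω
      rw [hω]
    have h2 : ∫ ω, s n (P n ω) (T (P n ω)) ∂μ = ∫ ω, (fun j => s n j (T j)) (P n ω) ∂μ := rfl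
    rw [h1, h2, hmap𝕜 (n + 1) (fun j => s (n + 1) j (T (r n j))), hmap𝕜 n (fun j => s n j (T j))]
    have h3 := phi_mart hm (π n) (π (n + 1)) (r n) (hr n) T
    have h4 : ∫ w, phi lam m (π (n + 1)) w (T (π n w)) ∂lam =
        ∫ w, (fun j => s (n + 1) j (T (r n j))) (π (n + 1) w) ∂lam := by
      refine integral_congr_ae (Eventually.of_forall fun w => ?_)
      simp only [phi_apply, hr n w]
      rfl
    rw [← h4, h3]
    rfl
  · intro n
    have h1 : ∫ ω, ‖s (n + 1) (P (n + 1) ω) - s n (r n (P (n + 1) ω))‖ ∂μ =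
        ∫ w, ‖s (n + 1) (π (n + 1) w) - s n (r n (π (n + 1) w))‖ ∂lam :=
      hmapR (n + 1) (fun j => ‖s (n + 1) j - s n (r n j)‖)
    rw [h1]
    refine (hosc n).trans (le_of_eq ?_)
    refine integral_congr_ae (Eventually.of_forall fun w => ?_)
    simp only [phi_apply]
    rw [← hr n w]

theorem rnp_of_prob {Y : Type v} [NormedAddCommGroup Y] [NormedSpace ℝ Y]
    (H : ∀ (W : Type w) [MeasurableSpace W] (lam : Measure W) [IsProbabilityMeasure lam]
      (m : VectorMeasure W Y), (∀ A, MeasurableSet A → ‖m A‖ ≤ lam.real A) →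
      ∃ h : W → Y, Integrable h lam ∧ ∀ A, MeasurableSet A → m A = ∫ w in A, h w ∂lam) :
    RNP.{w} Y := by
  intro W _ ν _ m hac hbv
  set lam := m.variation with hlam
  haveI : IsFiniteMeasure lam := ⟨lt_top_iff_ne_top.2 hbv⟩
  have hm : ∀ A, MeasurableSet A → ‖m A‖ ≤ lam.real A := fun A _ =>
    VectorMeasure.norm_measure_le_variation
  by_cases hz : lam univ = 0
  · refine ⟨0, integrable_zero _ _ _, fun A hA => ?_⟩
    have h1 := hm A hA
    have h2 : lam.real A = 0 := by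
      rw [measureReal_def, measure_mono_null (subset_univ A) hz]; rfl
    rw [h2] at h1
    simp [norm_le_zero_iff.1 h1]
  have hc : 0 < lam.real univ := by
    rw [measureReal_def]
    exact ENNReal.toReal_pos hz (measure_ne_top _ _)
  set c := lam.real univ with hcdef
  let lam' : Measure W := (lam univ)⁻¹ • lam
  haveI : IsProbabilityMeasure lam' := ⟨by
    show ((lam univ)⁻¹ • lam) univ = 1
    rw [Measure.smul_apply, smul_eq_mul, ENNReal.inv_mul_cancel hz (measure_ne_top _ _)]⟩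
  let m' : VectorMeasure W Y := c⁻¹ • m
  have hm'A : ∀ A, m' A = c⁻¹ • m A := fun A => rfl
  have hlam' : ∀ A, lam'.real A = c⁻¹ * lam.real A := by
    intro A
    rw [measureReal_def, measureReal_def]
    show (((lam univ)⁻¹ • lam) A).toReal = _
    rw [Measure.smul_apply, smul_eq_mul, ENNReal.toReal_mul, ENNReal.toReal_inv]
    rfl
  obtain ⟨h, hh1, hh2⟩ := H W lam' m' (fun A hA => by
    rw [hm'A, hlam', norm_smul, norm_inv, Real.norm_of_nonneg hc.le]
    exact mul_le_mul_of_nonneg_left (hm A hA) (inv_nonneg.2 hc.le))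
  have hh1' : Integrable h lam := by
    have h1 : lam = (lam univ) • lam' := by
      show lam = (lam univ) • ((lam univ)⁻¹ • lam)
      rw [smul_smul, ENNReal.mul_inv_cancel hz (measure_ne_top _ _), one_smul]
    rw [h1]
    exact hh1.smul_measure (measure_ne_top _ _)
  have hh2' : ∀ A, MeasurableSet A → m A = ∫ w in A, h w ∂lam := by
    intro A hA
    have h1 := hh2 A hA
    rw [hm'A] at h1
    have h2 : ∫ w in A, h w ∂lam' = c⁻¹ • ∫ w in A, h w ∂lam := by
      show ∫ w in A, h w ∂((lam univ)⁻¹ • lam) = _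
      rw [Measure.restrict_smul, integral_smul_measure, ENNReal.toReal_inv]
      rfl
    rw [h2] at h1
    exact smul_right_injective _ (inv_ne_zero hc.ne') h1
  have hll : lam ≪ ν := by
    refine Measure.AbsolutelyContinuous.mk fun A hA hνA => ?_
    rw [hlam, VectorMeasure.variation_apply_eq_zero hA]
    intro B hBA hB
    exact hac B hB (measure_mono_null hBA hνA)
  refine ⟨fun w => (lam.rnDeriv ν w).toReal • h w, ?_, fun A hA => ?_⟩
  · exact (integrable_rnDeriv_smul_iff hll).2 hh1'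
  · rw [hh2' A hA, setIntegral_rnDeriv_smul hll hA]

theorem main {Ω : Type u} [MeasurableSpace Ω] {μ : Measure Ω} [IsProbabilityMeasure μ]
    (hμ : Atomless μ) {𝕜 : Type*} [RCLike 𝕜] {X : Type v} [NormedAddCommGroup X] [NormedSpace 𝕜 X]
    [NormedSpace ℝ X] [IsScalarTower ℝ 𝕜 X] [CompleteSpace X]
    {p q : ℝ≥0∞} [Fact (1 ≤ p)] [Fact (1 ≤ q)] [ENNReal.HolderConjugate q p]
    (hatt : ∀ f : Lp X p μ, ∃ g : Lp (StrongDual 𝕜 X) q μ, ‖g‖ ≤ 1 ∧
      ∫ ω, g ω (f ω) ∂μ = ((‖f‖ : ℝ) : 𝕜)) : RNP.{w} (StrongDual 𝕜 X) :=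
  rnp_of_prob fun _ _ lam _ m hm => rnp_prob hμ hatt lam m hm

end Pool.Agent.R475.RNP
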